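import Pool.Agent.helper12.KZ.Spec

/-!
# Project kz (MP_baa4d7_al), row kz:KEG: the chains of `X.inc.range`
-/

set_option autoImplicit false

namespace Pool.Agent.KZ

open Pool.Agent.helper58.DC Pool.Agent.DI Pool.Agent.TY

theorem KEG (hKCS : KCS_stmt) (hA7 : A7_stmt) (hA8 : A8_stmt) (hA14 : A14_stmt) (hC1 : C1_stmt)
    (hC10 : C10_stmt) (hC15 : C15_stmt) (hC16 : C16_stmt) (hIM : IM_stmt) (hD0 : D0_stmt) :
    KEG_stmt := by
  intro G Γ A' A _ _ _ _ _ _ X ρ p l _ _ M hM hpM hN hFr hOp χ hχ hst d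
  have hnor : X.inc.range.Normal := hFr.nor
  obtain ⟨τ, hτ⟩ : ∃ τ : Γ → ℂ, τ = omega (ext0 X.inc χ) := ⟨_, rfl⟩
  rw [← hτ]
  have hOp' : IsOp p X.inc.range ⊥ := ((hA14 G Γ p X.inc X.inc_injective).2.1).1 hOp
  obtain ⟨R, hR1, hR2⟩ := hC15 G M
  have e3 := hA7 Γ p X.inc.range ⊥ ⊤ (gst p M (ρ.comp X.proj) X.inc.range τ d) hOp' (by
    have : nz X.inc.range = ⊤ := Subgroup.normalizer_eq_top_iff.2 hnor
    rw [this]
    exact le_top)
  have e4 := hA8 G Γ p X.inc X.inc_injective ⊤ (gst p M (ρ.comp X.proj) X.inc.range τ d)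
  rw [e3] at e4
  have e5 := hKCS G Γ A' A Γ X X.inc.range ⊤ X.inc.range 1 (embT X) p l M hM hpM hN
    (ρ.comp X.proj) ρ hFr le_rfl (fun m => rfl) τ d R hR1 hR2
  have hi : (embT X).i = X.inc := rfl
  rw [hi, e4] at e5
  obtain ⟨b, ⟨hbR, hb1⟩, hb2⟩ := hR2 χ ⟨χ, hχ, (hIM G M χ χ χ).1⟩
  have hbχ : Induces M b χ := (hIM G M χ b b).2.1 hb1
  have hCov : Cov M X.inc.range τ (ext0 X.inc b) := by
    intro g _
    rw [hτ]
    exact (hC1 p M hM hpM).2.1 _ _ (hC16 G Γ p M hM hpM X.inc X.inc_injective χ b hb1 g)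
  rw [Finset.sum_eq_single b, if_pos hCov] at e5
  · rw [e5]
    congr 1
    rw [← smul_eq_mul (Nat.card G : ℤ), smul_finsum]
    refine finsum_congr fun U => ?_
    rw [smul_finsum]
    refine finsum_congr fun _ => ?_
    rw [one_mul, hD0 G Γ A' X p M b χ hbχ, smul_eq_mul]
    ring
  · intro c hcR hcb
    rw [if_neg]
    intro hcov
    apply hcb
    apply hb2
    refine ⟨hcR, ?_⟩
    apply (hIM G M c χ χ).2.1
    refine hC10 G Γ A' X p M hM hpM c (hR1 c hcR) χ hχ hst ?_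
    intro g hg
    have := hcov g hg
    rw [hτ] at this
    exact this
  · intro h
    exact absurd hbR h

end Pool.Agent.KZ
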